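import Pool.Agent.Y317.GT.Gen3
import Pool.Agent.Y748.PS.W2

/-!
# `M` is the compositum of `M₀` and `κ(x)` (project GT, task GEN2)
-/

set_option autoImplicit false
set_option linter.all false

open Polynomial FF

namespace Pool.Agent.Y317.GT

open Pool.Agent.Y157.PS Pool.Agent.Y157.GT

section pair

variable {ℓ : ℕ} {κ₀ κ R₀ R M₀ M : Type} [Field κ₀] [Field κ] [Field R₀] [Field R]
  [Field M₀] [Field M] [Algebra κ₀ κ] [Algebra κ₀ R₀] [Algebra R₀ M₀] [Algebra κ₀ M₀]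
  [IsScalarTower κ₀ R₀ M₀] [Algebra κ R] [Algebra R M] [Algebra κ M] [IsScalarTower κ R M]
  {x₀ : R₀} {x : R} {B₀ : Finset κ₀} {B : Finset κ} {Y₀ : M₀} {Y : M} {ι : M₀ →+* M}

/-- automorphisms of `M` over `R` map the image of a level to itself -/
theorem map_level (P : Pair ℓ κ₀ κ R₀ R M₀ M x₀ x B₀ B Y₀ Y ι) (N₀ : IntermediateField R₀ M₀)
    [Normal R₀ N₀] (γ : M ≃ₐ[R] M) (z₀ : M₀) (hz : z₀ ∈ N₀) : ∃ z₁ ∈ N₀, γ (ι z₀) = ι z₁ := by
  letI : Algebra R₀ M := (ι.comp (algebraMap R₀ M₀)).toAlgebra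
  let ιA : M₀ →ₐ[R₀] M := { ι with commutes' := fun _ => rfl }
  have hcomp : ∀ c : R₀, γ (algebraMap R₀ M c) = algebraMap R₀ M c := by
    intro c
    obtain ⟨r', hr'⟩ := exists_R P c
    show γ (ι (algebraMap R₀ M₀ c)) = ι (algebraMap R₀ M₀ c)
    rw [← hr', γ.commutes]
  let E : IntermediateField R₀ M := N₀.map ιA
  have hE : Normal R₀ E := Normal.of_algEquiv (IntermediateField.equivMap N₀ ιA)
  let f : E →ₐ[R₀] M :=
    { ((γ : M ≃+* M) : M →+* M).comp (algebraMap E M) with commutes' := fun c => hcomp c }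
  have hf := AlgHom.fieldRange_of_normal f
  have h1 : ι z₀ ∈ E := ⟨z₀, hz, rfl⟩
  have h2 : γ (ι z₀) ∈ f.fieldRange := ⟨⟨ι z₀, h1⟩, rfl⟩
  rw [hf] at h2
  obtain ⟨z₁, hz₁, h3⟩ := h2
  exact ⟨z₁, hz₁, h3.symm⟩

/-- the compositum of a level and `κ(x)` is a level -/
theorem lev_comp [Fact ℓ.Prime] [CharZero κ] (P : Pair ℓ κ₀ κ R₀ R M₀ M x₀ x B₀ B Y₀ Y ι)
    (N₀ : IntermediateField R₀ M₀) (hN₀ : Lev ℓ N₀) :
    Lev ℓ (IntermediateField.adjoin R (ι '' (N₀ : Set M₀))) := by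
  have hgal := P.cov.gal
  have hfin := hN₀.fin
  have hN₀gal := hN₀.gal
  haveI : CharZero R := charZero_of_injective_algebraMap (algebraMap κ R).injective
  obtain ⟨N, hN⟩ : ∃ N, N = IntermediateField.adjoin R (ι '' (N₀ : Set M₀)) := ⟨_, rfl⟩
  rw [← hN]
  have b := Module.finBasis R₀ N₀
  have h1 : N.toSubmodule ≤ Submodule.span R (Set.range fun i => ι (b i : M₀)) := by
    intro z hz
    rw [hN] at hz
    obtain ⟨c, hc⟩ := mem_comp P N₀ b z hz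
    exact (Submodule.mem_span_range_iff_exists_fun R).2 ⟨c, hc⟩
  have hf1 : FiniteDimensional R (Submodule.span R (Set.range fun i => ι (b i : M₀))) :=
    FiniteDimensional.span_of_finite R (Set.finite_range _)
  have hf2 : FiniteDimensional R N.toSubmodule := Submodule.finiteDimensional_of_le h1
  have hNfin : FiniteDimensional R N := hf2
  have hnorm : Normal R N := by
    rw [IntermediateField.normal_iff_forall_map_le']
    intro g
    rw [hN, IntermediateField.adjoin_map, IntermediateField.adjoin_le_iff]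
    rintro _ ⟨_, ⟨w, hw, rfl⟩, rfl⟩
    obtain ⟨w₁, hw₁, h⟩ := map_level P N₀ g w hw
    refine IntermediateField.subset_adjoin R _ ?_
    exact ⟨w₁, hw₁, h.symm⟩
  haveI : Algebra.IsSeparable R N := inferInstance
  have hNgal : IsGalois R N := ⟨⟩
  exact Pool.Agent.Y748.PS.lev_of_galois P.cov.pow N hNfin hNgal

end pair

theorem gen2' (hPROL : S_PROL) (hRES : S_RES) (hG2 : S_G2) (hG4 : S_G4) (hGEN1 : S_GEN1) :
    S_GEN2 := by
  intro ℓ _ κ₀ κ R₀ R M₀ M _ _ _ _ _ _ _ _ _ _ _ _ _ _ _ _ _ _ _ x₀ x B₀ B Y₀ Y ι P F _ V r hr D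
    O hO hun
  have hℓ : ℓ.Prime := Fact.out
  have hgood := good_of P hr
  have hℓU : IsU V (ℓ : κ) := isU_nat hr hℓ.ne_zero
  haveI : CharZero R := charZero_of_injective_algebraMap (algebraMap κ R).injective
  have hgal := P.cov.gal
  have hgal₀ := P.cov₀.gal
  obtain ⟨ζ₀, hζ₀⟩ : ∃ ζ : κ₀, IsPrimitiveRoot ζ ℓ := by
    haveI : NeZero (ℓ : κ₀) := ⟨by exact_mod_cast hℓ.ne_zero⟩
    exact HasEnoughRootsOfUnity.exists_primitiveRoot κ₀ ℓ
  have hζR : ∃ ζ : R, IsPrimitiveRoot ζ ℓ :=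
    ⟨algebraMap κ R (algebraMap κ₀ κ ζ₀), (hζ₀.map_of_injective
      (algebraMap κ₀ κ).injective).map_of_injective (algebraMap κ R).injective⟩
  refine hPROL ℓ R M hζR P.cov.gal P.cov.pow _ fun h hh => ?_
  by_cases hh0 : h = 0
  · rw [hh0]
    exact zero_mem _
  -- a level
  obtain ⟨N₁, hL₁, hN₁⟩ := exists_fin P _ hh
  obtain ⟨N₂, hYN₂, hL₂⟩ := P.cov₀.pow Y₀
  obtain ⟨N₀, hN₀⟩ : ∃ N₀, N₀ = N₁ ⊔ N₂ := ⟨_, rfl⟩
  have hL₀ : Lev ℓ N₀ := by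
    rw [hN₀]
    exact Pool.Agent.Y31.PS.lev_sup hL₁ hL₂
  have hY₀ : Y₀ ∈ N₀ := by
    rw [hN₀]
    exact (le_sup_right : N₂ ≤ N₁ ⊔ N₂) hYN₂
  obtain ⟨N, hN⟩ : ∃ N, N = IntermediateField.adjoin R (ι '' (N₀ : Set M₀)) := ⟨_, rfl⟩
  have hhN : h ^ ℓ ∈ N := by
    rw [hN]
    exact comp_mono (by rw [hN₀]; exact le_sup_left) hN₁
  have hL : Lev ℓ N := by
    rw [hN]
    exact lev_comp P N₀ hL₀
  have hιN : ∀ z₀ ∈ N₀, ι z₀ ∈ N := by
    intro z₀ hz₀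
    rw [hN]
    exact IntermediateField.subset_adjoin R _ ⟨z₀, hz₀, rfl⟩
  have hYN : Y ∈ N := by
    rw [← P.root]
    exact hιN _ hY₀
  have hκN : ∀ c, algebraMap κ M c ∈ N := fun c => by
    rw [IsScalarTower.algebraMap_apply κ R M]
    exact N.algebraMap_mem _
  have hNS : N ≤ IntermediateField.adjoin R (Set.range ι) := by
    rw [hN]
    exact IntermediateField.adjoin.mono R _ _ (Set.image_subset_range _ _)
  -- normalisation
  obtain ⟨c, hc0, hcU⟩ := (hG2 ℓ κ R M x B Y P.cov V O hO).1 h hh0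
  obtain ⟨h₁, hh₁⟩ : ∃ h₁, h₁ = h / algebraMap κ M c := ⟨_, rfl⟩
  rw [← hh₁] at hcU
  have hh₁N : h₁ ^ ℓ ∈ N := by
    rw [hh₁, div_pow]
    exact div_mem hhN (pow_mem (hκN c) _)
  have hcM : algebraMap κ M c ≠ 0 := (_root_.map_ne_zero _).2 hc0
  suffices hgoal : h₁ ∈ IntermediateField.adjoin R (Set.range ι) by
    have e : h = h₁ * algebraMap κ M c := by
      rw [hh₁, div_mul_cancel₀ _ hcM]
    rw [e]
    exact mul_mem hgoal (hNS (hκN c))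
  obtain ⟨hu, hres⟩ := hGEN1 ℓ κ₀ κ R₀ R M₀ M x₀ x B₀ B Y₀ Y ι P F V r hr O hO
  have hιO := iota_mem P hr hO
  obtain ⟨y₀, hy₀N, hy₀⟩ := hres N₀ hL₀.fin (h₁ ^ ℓ) (by rw [← hN]; exact hh₁N)
    (pow_mem hcU.2.1 _)
  have hpU : IsU O (h₁ ^ ℓ) :=
    ⟨pow_ne_zero _ hcU.1, pow_mem hcU.2.1 _, by rw [← inv_pow]; exact pow_mem hcU.2.2 _⟩
  have hy₀0 : y₀ ≠ 0 := by
    rintro rfl
    rw [map_zero, sub_zero] at hy₀
    exact hpU.not_nonunit hy₀
  -- the residue field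
  have hVO : ∀ c ∈ V, algebraMap κ M c ∈ O := fun c hc => (hO.1 c).2 hc
  let iV : V →+* O := ((algebraMap κ M).comp V.subtype).codRestrict O.toSubring
    (fun c => hVO c c.2)
  obtain ⟨s, hs⟩ : ∃ s, s = IsLocalRing.residue O := ⟨_, rfl⟩
  have hsR : Res O s := by
    rw [hs]
    exact Pool.Agent.Y419.PS.res_residue O
  have hker : RingHom.ker r ≤ RingHom.ker (s.comp iV) := by
    intro c hc
    rw [RingHom.mem_ker, hr.res.ker] at hc
    rw [RingHom.mem_ker, RingHom.comp_apply, hsR.ker]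
    exact hO.nonunit.2 hc
  let fF : F →+* IsLocalRing.ResidueField O :=
    (r.liftOfSurjective hr.res.surj) ⟨s.comp iV, hker⟩
  letI : Algebra F (IsLocalRing.ResidueField O) := fF.toAlgebra
  have hfr : ∀ (c : κ) (hc : c ∈ V) (hc' : algebraMap κ M c ∈ O),
      s ⟨_, hc'⟩ = algebraMap F (IsLocalRing.ResidueField O) (r ⟨c, hc⟩) := by
    intro c hc hc'
    exact (RingHom.liftOfSurjective_comp_apply r hr.res.surj ⟨s.comp iV, hker⟩ ⟨c, hc⟩).symm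
  obtain ⟨Nb, hNb⟩ := Pool.Agent.Y419.PS.exists_Nb hr.res hsR hVO hfr N
  let f : M₀ →+* IsLocalRing.ResidueField O := s.comp (ι.codRestrict O.toSubring hιO)
  have hf : ∀ z₀, f z₀ = s ⟨ι z₀, hιO z₀⟩ := fun _ => rfl
  have hfN : ∀ z₀ : N₀, f z₀ ∈ Nb := fun z₀ =>
    (hNb _).2 ⟨ι z₀, hιO z₀, hιN z₀ z₀.2, rfl⟩
  let fN : N₀ →+* Nb := (f.comp (algebraMap N₀ M₀)).codRestrict Nb.toSubalgebra.toSubring hfN
  have hfNb : Function.Bijective fN := by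
    refine ⟨fN.injective, ?_⟩
    rintro ⟨y, hy⟩
    obtain ⟨z, hz, hzN, rfl⟩ := (hNb _).1 hy
    obtain ⟨z₀, hz₀, h⟩ := hres N₀ hL₀.fin z (by rw [← hN]; exact hzN) hz
    exact ⟨⟨z₀, hz₀⟩, Subtype.ext (s_congr hsR hz (hιO z₀) h).symm⟩
  let eN := RingEquiv.ofBijective fN hfNb
  -- the constants
  have hconst : ∀ c : F, ∃ c₀ : κ₀, eN (algebraMap κ₀ N₀ c₀) = algebraMap F Nb c := by
    intro c
    obtain ⟨c₀, hc₀⟩ := hr.surj c
    refine ⟨c₀, Subtype.ext ?_⟩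
    show f (algebraMap κ₀ M₀ c₀) = algebraMap F (IsLocalRing.ResidueField O) c
    rw [← hc₀, ← hfr _ (hr.mem c₀) (hVO _ (hr.mem c₀)), hf]
    congr 1
    exact Subtype.ext (P.const c₀)
  -- the claim
  have hclaim : ∀ W : Place κ₀ M₀, (ℓ : ℤ) ∣ W.ord y₀ := by
    intro W
    obtain ⟨w₀, hw₀⟩ := (hRES ℓ κ₀ R₀ M₀ x₀ B₀ Y₀ P.cov₀ N₀ hL₀.fin hY₀).1 W
    let w : Place F Nb :=
      { ord := fun y => w₀.ord (eN.symm y)
        ord_zero := by rw [map_zero, w₀.ord_zero]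
        ord_mul := by
          intro a b ha hb
          rw [map_mul]
          exact w₀.ord_mul ((map_ne_zero_iff _ eN.symm.injective).2 ha)
            ((map_ne_zero_iff _ eN.symm.injective).2 hb)
        ord_add := by
          intro a b ha hb hab
          rw [map_add]
          refine w₀.ord_add ((map_ne_zero_iff _ eN.symm.injective).2 ha)
            ((map_ne_zero_iff _ eN.symm.injective).2 hb) ?_
          rw [← map_add]
          exact (map_ne_zero_iff _ eN.symm.injective).2 hab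
        ord_const := by
          intro c hc
          obtain ⟨c₀, hc₀⟩ := hconst c
          rw [← hc₀, eN.symm_apply_apply]
          refine w₀.ord_const ?_
          rintro rfl
          rw [map_zero, map_zero] at hc₀
          exact hc ((map_eq_zero (algebraMap F Nb)).1 hc₀.symm)
        surj := by
          obtain ⟨t, ht0, ht⟩ := w₀.surj
          exact ⟨eN t, (map_ne_zero_iff _ eN.injective).2 ht0, by
            rw [eN.symm_apply_apply, ht]⟩ }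
    have h4 := hG4 ℓ κ R M x B Y P.cov F V r hr.res hgood hℓU D O hO hun
      (IsLocalRing.ResidueField O) s hsR hfr N hL hYN Nb hNb h₁ hcU.2.1 1 hcU.2.2 hcU.1
      (by rw [pow_one]; exact hh₁N) w (eN ⟨y₀, hy₀N⟩) (by
        show f y₀ = _
        rw [pow_one, ← map_pow, hf]
        exact (s_congr hsR (pow_mem hcU.2.1 ℓ) (hιO y₀) hy₀).symm)
    rw [pow_one] at h4
    have h5 : w.ord (eN ⟨y₀, hy₀N⟩) = w₀.ord ⟨y₀, hy₀N⟩ := by
      show w₀.ord (eN.symm (eN ⟨y₀, hy₀N⟩)) = _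
      rw [eN.symm_apply_apply]
    rw [h5] at h4
    have h6 := hw₀ ⟨y₀, hy₀N⟩
    rw [← h6] at h4
    exact h4
  obtain ⟨h₀, hh₀⟩ := P.cov₀.root y₀ hy₀0 hclaim
  have hh₀0 : h₀ ≠ 0 := by
    rintro rfl
    rw [zero_pow hℓ.ne_zero] at hh₀
    exact hy₀0 hh₀.symm
  -- the residue of `h₁ / ι h₀`
  have hh₀U := iota_isU P hr hO h₀ hh₀0
  have htO : h₁ / ι h₀ ∈ O := (hcU.div hh₀U).2.1
  have hs1 : s ⟨h₁ / ι h₀, htO⟩ ^ ℓ = 1 := by
    have h5 : s ⟨h₁ / ι h₀, htO⟩ * f h₀ = s ⟨h₁, hcU.2.1⟩ := by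
      rw [hf, ← map_mul]
      congr 1
      exact Subtype.ext (div_mul_cancel₀ _ hh₀U.1)
    have h6 : s ⟨h₁, hcU.2.1⟩ ^ ℓ = f h₀ ^ ℓ := by
      rw [← map_pow, ← map_pow, hh₀, hf]
      exact s_congr hsR (pow_mem hcU.2.1 ℓ) (hιO y₀) hy₀
    rw [← h5, mul_pow] at h6
    have h7 : f h₀ ^ ℓ ≠ 0 := pow_ne_zero _ ((_root_.map_ne_zero f).2 hh₀0)
    exact mul_right_cancel₀ h7 (h6.trans (one_mul _).symm)
  have hζk : IsPrimitiveRoot (f (algebraMap κ₀ M₀ ζ₀)) ℓ :=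
    (hζ₀.map_of_injective (algebraMap κ₀ M₀).injective).map_of_injective f.injective
  obtain ⟨i, -, hi⟩ := hζk.eq_pow_of_pow_eq_one hs1
  -- the corrected root
  obtain ⟨h₂, hh₂⟩ : ∃ h₂, h₂ = algebraMap κ₀ M₀ ζ₀ ^ i * h₀ := ⟨_, rfl⟩
  have hζ0 : algebraMap κ₀ M₀ ζ₀ ≠ 0 := (_root_.map_ne_zero _).2 (hζ₀.ne_zero hℓ.ne_zero)
  have hh₂0 : h₂ ≠ 0 := by
    rw [hh₂]
    exact mul_ne_zero (pow_ne_zero _ hζ0) hh₀0
  have hh₂ℓ : h₂ ^ ℓ = y₀ := by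
    rw [hh₂, mul_pow, hh₀, ← pow_mul, mul_comm i ℓ, pow_mul, ← map_pow, hζ₀.pow_eq_one, map_one,
      one_pow, one_mul]
  have hh₂U := iota_isU P hr hO h₂ hh₂0
  have hgO : h₁ / ι h₂ ∈ O := (hcU.div hh₂U).2.1
  have hg1 : s ⟨h₁ / ι h₂, hgO⟩ = 1 := by
    have h5 : s ⟨h₁ / ι h₂, hgO⟩ * (f (algebraMap κ₀ M₀ ζ₀) ^ i) = s ⟨h₁ / ι h₀, htO⟩ := by
      rw [← map_pow, hf, ← map_mul]
      congr 1
      apply Subtype.ext
      show h₁ / ι h₂ * ι (algebraMap κ₀ M₀ ζ₀ ^ i) = h₁ / ι h₀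
      have h6 : ι (algebraMap κ₀ M₀ ζ₀ ^ i) ≠ 0 := (_root_.map_ne_zero _).2 (pow_ne_zero _ hζ0)
      have h7 := hh₀U.1
      rw [hh₂, map_mul]
      field_simp
    rw [← hi] at h5
    have h7 : f (algebraMap κ₀ M₀ ζ₀) ^ i ≠ 0 := pow_ne_zero _ ((_root_.map_ne_zero f).2 hζ0)
    exact mul_right_cancel₀ h7 (h5.trans (one_mul _).symm)
  have hgS : h₁ / ι h₂ ∈ IntermediateField.adjoin R (Set.range ι) := by
    refine Pool.Agent.Y419.PS.mem_of_res_one hr.res hℓ.pos hℓU hO hun hsR _ _ hgO hg1 1 ?_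
    rw [pow_one, div_pow, ← map_pow, hh₂ℓ]
    exact div_mem (hNS hh₁N) (IntermediateField.subset_adjoin R _ ⟨y₀, rfl⟩)
  have e : h₁ = h₁ / ι h₂ * ι h₂ := (div_mul_cancel₀ _ hh₂U.1).symm
  rw [e]
  exact mul_mem hgS (IntermediateField.subset_adjoin R _ ⟨h₂, rfl⟩)

end Pool.Agent.Y317.GT
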