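import Pool.Agent.Y317.GT.Gen1
import Pool.Agent.Y419.PS.FIXF
import Pool.Agent.Y31.PS.Common

/-!
# Restriction to the small covering field is an isomorphism of groups (project GT, task GEN3)
-/

set_option autoImplicit false
set_option linter.all false

open Polynomial FF

namespace Pool.Agent.Y317.GT

open Pool.Agent.Y157.PS Pool.Agent.Y157.GT

section pair

variable {ℓ : ℕ} {κ₀ κ R₀ R M₀ M : Type} [Field κ₀] [Field κ] [Field R₀] [Field R]
  [Field M₀] [Field M] [Algebra κ₀ κ] [Algebra κ₀ R₀] [Algebra R₀ M₀] [Algebra κ₀ M₀]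
  [IsScalarTower κ₀ R₀ M₀] [Algebra κ R] [Algebra R M] [Algebra κ M] [IsScalarTower κ R M]
  {x₀ : R₀} {x : R} {B₀ : Finset κ₀} {B : Finset κ} {Y₀ : M₀} {Y : M} {ι : M₀ →+* M}
  {F : Type} [Field F] {V : ValuationSubring κ} {r : V →+* F} {O : ValuationSubring M}

theorem isU_nat (hr : Coef κ₀ V r) [CharZero κ₀] {n : ℕ} (hn : n ≠ 0) : IsU V (n : κ) := by
  have := isU_const hr (c := (n : κ₀)) (Nat.cast_ne_zero.2 hn)
  rwa [map_natCast] at this

theorem good_of (P : Pair ℓ κ₀ κ R₀ R M₀ M x₀ x B₀ B Y₀ Y ι) (hr : Coef κ₀ V r) :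
    Good V B := by
  constructor
  · intro e he
    obtain ⟨e₀, -, rfl⟩ := (P.branch e).1 he
    exact hr.mem e₀
  · intro e he e' he' hne
    obtain ⟨e₀, -, rfl⟩ := (P.branch e).1 he
    obtain ⟨e₀', -, rfl⟩ := (P.branch e').1 he'
    rw [← map_sub]
    refine isU_const hr fun h => hne ?_
    rw [sub_eq_zero.1 h]

theorem comp_mono {N N' : IntermediateField R₀ M₀} (h : N ≤ N') :
    IntermediateField.adjoin R (ι '' (N : Set M₀)) ≤
      IntermediateField.adjoin R (ι '' (N' : Set M₀)) :=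
  IntermediateField.adjoin.mono R _ _ (Set.image_mono h)

/-- elements of the compositum are in the compositum of a level -/
theorem exists_fin [Fact ℓ.Prime] (P : Pair ℓ κ₀ κ R₀ R M₀ M x₀ x B₀ B Y₀ Y ι) (z : M)
    (hz : z ∈ IntermediateField.adjoin R (Set.range ι)) :
    ∃ N₀ : IntermediateField R₀ M₀, Lev ℓ N₀ ∧
      z ∈ IntermediateField.adjoin R (ι '' (N₀ : Set M₀)) := by
  have := P.cov₀.gal
  induction hz using IntermediateField.adjoin_induction with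
  | mem y hy =>
    obtain ⟨z₀, rfl⟩ := hy
    obtain ⟨N, hN, hL⟩ := P.cov₀.pow z₀
    exact ⟨N, hL, IntermediateField.subset_adjoin R _ ⟨z₀, hN, rfl⟩⟩
  | algebraMap c =>
    obtain ⟨N, hN, hL⟩ := P.cov₀.pow 0
    exact ⟨N, hL, algebraMap_mem _ c⟩
  | add a b _ _ ha hb =>
    obtain ⟨N, hL, ha⟩ := ha
    obtain ⟨N', hL', hb⟩ := hb
    exact ⟨N ⊔ N', Pool.Agent.Y31.PS.lev_sup hL hL',
      add_mem (comp_mono le_sup_left ha) (comp_mono le_sup_right hb)⟩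
  | inv a _ ha =>
    obtain ⟨N, hL, ha⟩ := ha
    exact ⟨N, hL, inv_mem ha⟩
  | mul a b _ _ ha hb =>
    obtain ⟨N, hL, ha⟩ := ha
    obtain ⟨N', hL', hb⟩ := hb
    exact ⟨N ⊔ N', Pool.Agent.Y31.PS.lev_sup hL hL',
      mul_mem (comp_mono le_sup_left ha) (comp_mono le_sup_right hb)⟩

/-- elements algebraic over `ι(R₀)` are in `O` -/
theorem mem_of_alg (P : Pair ℓ κ₀ κ R₀ R M₀ M x₀ x B₀ B Y₀ Y ι) (hr : Coef κ₀ V r)
    (hO : Gauss V (algebraMap R M x) O) (z : M)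
    (h : ∃ p : R₀[X], p ≠ 0 ∧ p.eval₂ (ι.comp (algebraMap R₀ M₀)) z = 0) : z ∈ O := by
  obtain ⟨p, hp, hz⟩ := h
  refine mem_of_root (ι.comp (algebraMap R₀ M₀)) (fun a => iota_R_mem P hr hO a)
    (p * C p.leadingCoeff⁻¹) (monic_mul_leadingCoeff_inv hp) z ?_
  rw [eval₂_mul, hz, zero_mul]

theorem mem_range_of_alg (P : Pair ℓ κ₀ κ R₀ R M₀ M x₀ x B₀ B Y₀ Y ι) (hr : Coef κ₀ V r)
    (hO : Gauss V (algebraMap R M x) O)
    (hA : ∀ z ∈ O, ∃ z₀ : M₀, z - ι z₀ ∈ O.nonunits) (z : M)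
    (h : ∃ p : R₀[X], p ≠ 0 ∧ p.eval₂ (ι.comp (algebraMap R₀ M₀)) z = 0) :
    ∃ z₀, ι z₀ = z := by
  letI : Algebra R₀ M := (ι.comp (algebraMap R₀ M₀)).toAlgebra
  have h1 : IsAlgebraic R₀ z := h
  obtain ⟨z₀, hz₀⟩ := hA z (mem_of_alg P hr hO z h)
  have hgal := P.cov₀.gal
  have h2 : IsAlgebraic R₀ (ι z₀) := by
    obtain ⟨p, hp, hp0⟩ := Algebra.IsAlgebraic.isAlgebraic (R := R₀) z₀
    refine ⟨p, hp, ?_⟩
    show p.eval₂ (ι.comp (algebraMap R₀ M₀)) (ι z₀) = 0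
    rw [← hom_eval₂]
    exact (congrArg ι hp0).trans (map_zero ι)
  have h3 : IsAlgebraic R₀ (z - ι z₀) := h1.sub h2
  by_contra hne
  have h4 : z - ι z₀ ≠ 0 := fun h => hne ⟨z₀, (sub_eq_zero.1 h).symm⟩
  have h5 : (z - ι z₀)⁻¹ ∈ O := mem_of_alg P hr hO _ h3.inv
  rcases (nonunits_iff.1 hz₀).2 with h | h
  · exact h4 h
  · exact h h5

theorem s_congr {k : Type} [Field k] {s : O →+* k} (hs : Res O s) {a b : M} (ha : a ∈ O)
    (hb : b ∈ O) (h : a - b ∈ O.nonunits) : s ⟨a, ha⟩ = s ⟨b, hb⟩ := by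
  rw [← sub_eq_zero, ← map_sub]
  exact (hs.ker _).2 h

end pair

theorem gen3' (hGEX : S_GEX) (hGUN : S_GUN) (hG3 : S_G3) (hGEN1 : S_GEN1) (hGEN2 : S_GEN2) :
    S_GEN3 := by
  intro ℓ _ κ₀ κ R₀ R M₀ M _ _ _ _ _ _ _ _ _ _ _ _ _ _ _ _ _ _ _ x₀ x B₀ B Y₀ Y ι P F _ V r hr D
  have hgood := good_of P hr
  have hrot := hGEX ℓ κ R M x B Y P.cov F V r hr.res hgood D
  obtain ⟨e, he⟩ : B.Nonempty := by
    rw [← Finset.card_pos]
    have := P.cov.three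
    omega
  obtain ⟨O, -, -, hO, -⟩ := hrot e he
  have hun : ∀ O' : ValuationSubring M, Gauss V (algebraMap R M x) O' → O' = O :=
    fun O' hO' => hGUN ℓ κ R M x B Y P.cov V hrot O' O hO' hO
  have htop := hGEN2 ℓ κ₀ κ R₀ R M₀ M x₀ x B₀ B Y₀ Y ι P F V r hr D O hO hun
  obtain ⟨hu, hres⟩ := hGEN1 ℓ κ₀ κ R₀ R M₀ M x₀ x B₀ B Y₀ Y ι P F V r hr O hO
  have hA : ∀ z ∈ O, ∃ z₀ : M₀, z - ι z₀ ∈ O.nonunits := by
    intro z hz
    obtain ⟨N₀, hL, hzN⟩ := exists_fin P z (by rw [htop]; trivial)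
    obtain ⟨z₀, -, h⟩ := hres N₀ hL.fin z hzN hz
    exact ⟨z₀, h⟩
  have h3 := mem_range_of_alg P hr hO hA
  refine ⟨fun γ hγ => ?_, fun γ₀ => ?_, h3⟩
  · ext z
    have hz : z ∈ IntermediateField.adjoin R (Set.range ι) := by
      rw [htop]
      trivial
    show γ z = z
    induction hz using IntermediateField.adjoin_induction with
    | mem y hy =>
      obtain ⟨z₀, rfl⟩ := hy
      exact hγ z₀
    | algebraMap c => exact γ.commutes c
    | add a b _ _ ha hb => rw [map_add, ha, hb]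
    | inv a _ ha => rw [map_inv₀, ha]
    | mul a b _ _ ha hb => rw [map_mul, ha, hb]
  · obtain ⟨s, hs⟩ : ∃ s, s = IsLocalRing.residue O := ⟨_, rfl⟩
    have hsR : Res O s := by
      rw [hs]
      exact Pool.Agent.Y419.PS.res_residue O
    have hιO := iota_mem P hr hO
    let f : M₀ →+* IsLocalRing.ResidueField O := s.comp (ι.codRestrict O.toSubring hιO)
    have hfb : Function.Bijective f := by
      refine ⟨f.injective, fun y => ?_⟩
      obtain ⟨⟨z, hz⟩, rfl⟩ := hsR.surj y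
      obtain ⟨z₀, hz₀⟩ := hA z hz
      exact ⟨z₀, (s_congr hsR hz (hιO z₀) hz₀).symm⟩
    let e := RingEquiv.ofBijective f hfb
    let τ : IsLocalRing.ResidueField O ≃+* IsLocalRing.ResidueField O :=
      (e.symm.trans (γ₀ : M₀ ≃+* M₀)).trans e
    have hτ : ∀ z₀, τ (f z₀) = f (γ₀ z₀) := by
      intro z₀
      show e (γ₀ (e.symm (e z₀))) = f (γ₀ z₀)
      rw [e.symm_apply_apply]
      rfl
    obtain ⟨γ, hγ⟩ := hG3 ℓ κ R M x B Y P.cov V O hO hun _ s hsR τ (by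
      intro c hc
      obtain ⟨c₀, hc₀⟩ := exists_coef hr c ((hO.1 c).1 hc)
      have h5 : s ⟨algebraMap κ M c, hc⟩ = f (algebraMap κ₀ M₀ c₀) := by
        refine s_congr hsR hc (hιO _) ?_
        rw [P.const, ← map_sub]
        exact hO.nonunit.2 hc₀
      rw [h5, hτ, IsScalarTower.algebraMap_apply κ₀ R₀ M₀, γ₀.commutes]) (by
      intro hx
      have h5 : s ⟨algebraMap R M x, hx⟩ = f (algebraMap R₀ M₀ x₀) := by
        refine s_congr hsR hx (hιO _) ?_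
        rw [P.var, sub_self]
        exact nonunits_iff.2 ⟨zero_mem _, Or.inl rfl⟩
      rw [h5, hτ, γ₀.commutes])
    refine ⟨γ, fun z₀ => ?_⟩
    obtain ⟨z₁, hz₁⟩ := h3 (γ (ι z₀)) (by
      have hgal := P.cov₀.gal
      obtain ⟨p, hp, hp0⟩ := Algebra.IsAlgebraic.isAlgebraic (R := R₀) z₀
      refine ⟨p, hp, ?_⟩
      have hcomp : ((γ : M ≃+* M) : M →+* M).comp (ι.comp (algebraMap R₀ M₀)) =
          ι.comp (algebraMap R₀ M₀) := by
        ext c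
        obtain ⟨r', hr'⟩ := exists_R P c
        show γ (ι (algebraMap R₀ M₀ c)) = ι (algebraMap R₀ M₀ c)
        rw [← hr', γ.commutes]
      have h8 : ((γ : M ≃+* M) : M →+* M) (p.eval₂ (ι.comp (algebraMap R₀ M₀)) (ι z₀)) =
          p.eval₂ (((γ : M ≃+* M) : M →+* M).comp (ι.comp (algebraMap R₀ M₀))) (γ (ι z₀)) :=
        hom_eval₂ _ _ _ _
      rw [hcomp, ← hom_eval₂] at h8
      rw [← h8]
      have h9 : p.eval₂ (algebraMap R₀ M₀) z₀ = 0 := hp0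
      rw [h9, map_zero, map_zero])
    have hγO : γ (ι z₀) ∈ O := by
      rw [← hz₁]
      exact hιO z₁
    have h5 := hγ (ι z₀) (hιO z₀) hγO
    have h6 : s ⟨γ (ι z₀), hγO⟩ = f z₁ := by
      have : (⟨γ (ι z₀), hγO⟩ : O) = ⟨ι z₁, hιO z₁⟩ := Subtype.ext hz₁.symm
      rw [this]
      rfl
    rw [h6] at h5
    have h7 : f z₁ = f (γ₀ z₀) := h5.trans (hτ z₀)
    rw [← hz₁, hfb.1 h7]

end Pool.Agent.Y317.GT
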