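import Pool.Agent.Y157.GT.Stm
import Pool.Agent.Y529.PS.NDISC

/-!
# A valuation ring with residue field `κ₀` and a disc (project GT, task TPL)
-/

set_option autoImplicit false
set_option linter.all false

open Polynomial FF

namespace Pool.Agent.Y317.GT

open Pool.Agent.Y157.PS Pool.Agent.Y157.GT Pool.Agent.Y529.PS.ND

/-! ### discs for discrete valuation rings (copy of `Pool.Agent.Y529.PS.ndisc`) -/

theorem ndisc2' (hVAL : S_VAL) (hDISC : S_DISC) (hCONJ : S_CONJ) : S_NDISC2 := by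
  intro A k κ _ _ _ _ _ _ _ _ _ _ _ _ V hV hV' ℓ _ hℓ
  haveI : IsAlgClosed κ := IsAlgClosure.isAlgClosed k
  let kh := FractionRing (Ah A)
  let kb := AlgebraicClosure kh
  have hinj0 : Function.Injective ((algebraMap (Ah A) kh).comp (algebraMap A (Ah A))) :=
    (IsFractionRing.injective (Ah A) kh).comp (alg_inj A)
  let f0 : k →+* kh := IsFractionRing.lift hinj0
  have hf0 : ∀ a : A, f0 (algebraMap A k a) = algebraMap (Ah A) kh (algebraMap A (Ah A) a) :=
    fun a => IsFractionRing.lift_algebraMap hinj0 a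
  haveI : CharZero kh := charZero_of_injective_ringHom f0.injective
  obtain ⟨Vh, hVh⟩ := hVAL (Ah A) kh kb
  obtain ⟨i0, hi0⟩ : ∃ i0 : κ →+* kb, ∀ c : k, i0 (algebraMap k κ c) = algebraMap kh kb (f0 c) := by
    letI : Algebra k kb := ((algebraMap kh kb).comp f0).toAlgebra
    haveI : Algebra.IsAlgebraic k κ := IsAlgClosure.isAlgebraic
    let i1 : κ →ₐ[k] kb := IsAlgClosed.lift
    exact ⟨i1, fun c => i1.commutes c⟩
  have hi0A : ∀ a : A, i0 (algebraMap A κ a) = algebraMap (Ah A) kb (algebraMap A (Ah A) a) := by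
    intro a
    rw [IsScalarTower.algebraMap_apply A k κ, hi0, hf0, ← IsScalarTower.algebraMap_apply]
  have hB : ∀ b : Ah A, algebraMap (Ah A) kb b ∈ Vh := fun b => (hVh _).2 isIntegral_algebraMap
  have hnon : ∀ b ∈ IsLocalRing.maximalIdeal (Ah A), algebraMap (Ah A) kb b ∈ Vh.nonunits := by
    intro b hb
    rw [nonunits_iff]
    refine ⟨hB b, ?_⟩
    by_cases hb0 : b = 0
    · left; rw [hb0, map_zero]
    right
    intro h1
    have h2 : IsIntegral (Ah A) (algebraMap kh kb (algebraMap (Ah A) kh b)⁻¹) := by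
      rw [map_inv₀, ← IsScalarTower.algebraMap_apply]
      exact (hVh _).1 h1
    have h3 : IsIntegral (Ah A) (algebraMap (Ah A) kh b)⁻¹ :=
      (isIntegral_algHom_iff (IsScalarTower.toAlgHom (Ah A) kh kb)
        (algebraMap kh kb).injective).1 h2
    obtain ⟨y, hy⟩ := IsIntegrallyClosed.isIntegral_iff.1 h3
    have hb1 : algebraMap (Ah A) kh b ≠ 0 := by
      rw [ne_eq, map_eq_zero_iff _ (IsFractionRing.injective (Ah A) kh)]
      exact hb0
    have h4 : b * y = 1 := by
      apply IsFractionRing.injective (Ah A) kh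
      rw [map_mul, hy, mul_inv_cancel₀ hb1, map_one]
    exact (IsLocalRing.mem_maximalIdeal b).1 hb (IsUnit.of_mul_eq_one _ h4)
  have hmax : ∀ a ∈ IsLocalRing.maximalIdeal A,
      algebraMap A (Ah A) a ∈ IsLocalRing.maximalIdeal (Ah A) := by
    intro a ha
    rw [AdicCompletion.maximalIdeal_eq_map]
    exact Ideal.mem_map_of_mem _ ha
  -- conjugate the embedding
  let V' : ValuationSubring κ := Vh.comap i0
  have hV'A : ∀ a : A, algebraMap A κ a ∈ V' := by
    intro a
    rw [ValuationSubring.mem_comap, hi0A]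
    exact hB _
  have hV'n : ∀ a ∈ IsLocalRing.maximalIdeal A, algebraMap A κ a ∈ V'.nonunits := by
    intro a ha
    rw [pull_non i0 (V := V') (Vh := Vh) (fun z => ValuationSubring.mem_comap), hi0A]
    exact hnon _ (hmax a ha)
  haveI : Normal k κ := by
    haveI : Algebra.IsAlgebraic k κ := IsAlgClosure.isAlgebraic
    exact IsAlgClosure.normal k κ
  have htr : V'.comap (algebraMap k κ) = V.comap (algebraMap k κ) := by
    ext z
    exact (trace (A := A) (k := k) V' hV'A hV'n z).trans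
      (trace (A := A) (k := k) V hV hV' z).symm
  obtain ⟨γ, hγ⟩ := hCONJ k κ V' V htr
  let i : κ →+* kb := i0.comp (γ : κ →+* κ)
  have hi : ∀ z, z ∈ V ↔ i z ∈ Vh := fun z => by
    rw [hγ, ValuationSubring.mem_comap]
    rfl
  have hiA : ∀ a : A, i (algebraMap A κ a) = algebraMap (Ah A) kb (algebraMap A (Ah A) a) := by
    intro a
    rw [← hi0A]
    change i0 (γ (algebraMap A κ a)) = _
    rw [IsScalarTower.algebraMap_apply A k κ, γ.commutes]
  let F := IsLocalRing.ResidueField Vh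
  let rh : Vh →+* F := IsLocalRing.residue Vh
  have hrh : Res Vh rh := res_residue
  have hC : CDVR (Ah A) kh kb Vh :=
    { compl := inferInstance
      frac := inferInstance
      char0 := inferInstance
      closure := inferInstance
      int := hVh }
  have hℓ' : IsUnit ((ℓ : ℕ) : Ah A) := by
    have := hℓ.map (algebraMap A (Ah A))
    rwa [map_natCast] at this
  obtain ⟨D⟩ := hDISC (Ah A) kh kb Vh hC F rh hrh ℓ hℓ'
  let iV : V →+* Vh := (i.comp V.subtype).codRestrict Vh.toSubring (fun z => (hi z).1 z.2)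
  let r : V →+* F := rh.comp iV
  have hr : ∀ (z : κ) (hz : z ∈ V), r ⟨z, hz⟩ = rh ⟨i z, (hi z).1 hz⟩ := fun z hz => rfl
  have hres : ∀ c : Ah A, ∃ a : A, algebraMap A (Ah A) a - c ∈ IsLocalRing.maximalIdeal (Ah A) := by
    intro c
    obtain ⟨x, hx⟩ := (AdicCompletion.residueField_map_bijective A).2 (IsLocalRing.residue _ c)
    obtain ⟨a, rfl⟩ := IsLocalRing.residue_surjective x
    refine ⟨a, ?_⟩
    rw [IsLocalRing.ResidueField.map_residue] at hx
    rw [← IsLocalRing.residue_eq_zero_iff, map_sub, sub_eq_zero]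
    exact hx
  refine ⟨F, inferInstance, r, ⟨?_, ?_⟩, ⟨pullDisc i hi hr D⟩⟩
  · intro f
    obtain ⟨z, hz, hzf⟩ := res_surj i hi hiA hVh rh hrh hres hnon hV f
    exact ⟨⟨z, hz⟩, hzf⟩
  · intro z
    rw [pull_non i hi]
    exact hrh.ker _

/-! ### residue fields -/

theorem surj_core {κ₀ κ F : Type} [Field κ₀] [IsAlgClosed κ₀] [Field κ] [Field F] [Algebra κ₀ κ]
    (ρ : κ) (V : ValuationSubring κ) (hV : ∀ c : κ₀, algebraMap κ₀ κ c ∈ V)
    (hρV : ρ ∈ V.nonunits) (hρ0 : ρ ≠ 0) (r : V →+* F) (hr : Res V r)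
    (halg : ∀ z : κ, ∃ P : κ₀[X][X], P ≠ 0 ∧ P.eval₂ ((aeval ρ : κ₀[X] →ₐ[κ₀] κ) : κ₀[X] →+* κ) z = 0)
    (y : F) : ∃ c : κ₀, r ⟨algebraMap κ₀ κ c, hV c⟩ = y := by
  obtain ⟨z, rfl⟩ := hr.surj y
  obtain ⟨P, hP, hPz⟩ := halg z
  have hX : Irreducible (C (X : κ₀[X])) := (prime_C_iff.2 prime_X).irreducible
  obtain ⟨n, a, hna, rfl⟩ := WfDvdMonoid.max_power_factor hP hX
  have ha : a.eval₂ ((aeval ρ : κ₀[X] →ₐ[κ₀] κ) : κ₀[X] →+* κ) z = 0 := by
    rw [eval₂_mul, eval₂_pow, eval₂_C] at hPz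
    rcases mul_eq_zero.1 hPz with h | h
    · exfalso
      have h1 : aeval ρ (X : κ₀[X]) = 0 := by
        by_contra h0
        exact pow_ne_zero n h0 h
      rw [aeval_X] at h1
      exact hρ0 h1
    · exact h
  let iV : κ₀ →+* V := (algebraMap κ₀ κ).codRestrict V.toSubring hV
  let φV : κ₀[X] →+* V := eval₂RingHom iV ⟨ρ, non_mem hρV⟩
  have h1 : (V.subtype).comp φV = ((aeval ρ : κ₀[X] →ₐ[κ₀] κ) : κ₀[X] →+* κ) := by
    refine Polynomial.ringHom_ext (fun c => ?_) ?_
    · show ((eval₂ iV ⟨ρ, non_mem hρV⟩ (C c) : V) : κ) = aeval ρ (C c)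
      rw [eval₂_C, aeval_C]
      rfl
    · show ((eval₂ iV ⟨ρ, non_mem hρV⟩ X : V) : κ) = aeval ρ X
      rw [eval₂_X, aeval_X]
  have h2 : r.comp φV = (r.comp iV).comp (evalRingHom 0) := by
    refine Polynomial.ringHom_ext (fun c => ?_) ?_
    · show r (eval₂ iV ⟨ρ, non_mem hρV⟩ (C c)) = r (iV (eval 0 (C c)))
      rw [eval₂_C, eval_C]
    · show r (eval₂ iV ⟨ρ, non_mem hρV⟩ X) = r (iV (eval 0 X))
      rw [eval₂_X, eval_X, map_zero, map_zero]
      exact (hr.ker _).2 hρV
  have ha' : a.eval₂ φV z = 0 := by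
    apply Subtype.ext
    have h3 : V.subtype (a.eval₂ φV z) = a.eval₂ (V.subtype.comp φV) (V.subtype z) :=
      hom_eval₂ _ _ _ _
    rw [h1] at h3
    exact h3.trans ha
  have h3 : (a.map (evalRingHom 0)).eval₂ (r.comp iV) (r z) = 0 := by
    rw [eval₂_map, ← h2, ← hom_eval₂, ha', map_zero]
  have h4 : a.map (evalRingHom 0) ≠ 0 := by
    intro h
    apply hna
    rw [C_dvd_iff_dvd_coeff]
    intro i
    rw [X_dvd_iff, coeff_zero_eq_eval_zero]
    have h5 := congrArg (fun q : κ₀[X] => q.coeff i) h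
    simp only [coeff_map, coeff_zero] at h5
    exact h5
  letI : Algebra κ₀ F := (r.comp iV).toAlgebra
  obtain ⟨c, hc⟩ := const_of_alg (κ := κ₀) (z := r z) ⟨_, h4, h3⟩
  exact ⟨c, hc⟩

theorem tpl' (hEXTV : S_EXTV) (hND : S_NDISC2) : S_TPL := by
  intro ℓ _ κ₀ κ _ _ _ _ _ _ ρ hρ halg
  let L := IntermediateField.adjoin κ₀ {ρ}
  let t : L := IntermediateField.AdjoinSimple.gen κ₀ ρ
  let f : κ₀[X] →+* L := ((aeval t : κ₀[X] →ₐ[κ₀] L) : κ₀[X] →+* L)
  letI : Algebra κ₀[X] L := f.toAlgebra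
  letI : Algebra κ₀[X] κ := ((algebraMap L κ).comp f).toAlgebra
  haveI : IsScalarTower κ₀[X] L κ := IsScalarTower.of_algebraMap_eq fun _ => rfl
  have ht : ∀ p : κ₀[X], algebraMap L κ (f p) = aeval ρ p := fun p =>
    (aeval_algebraMap_apply κ t p).symm
  have hinj : Function.Injective (algebraMap κ₀[X] L) := by
    intro p q hpq
    have h1 : aeval ρ p = aeval ρ q := by
      rw [← ht, ← ht]
      exact congrArg _ hpq
    exact (transcendental_iff_injective.1 hρ) h1
  haveI : FaithfulSMul κ₀[X] L := (faithfulSMul_iff_algebraMap_injective _ _).2 hinj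
  haveI hfrac : IsFractionRing κ₀[X] L := IsFractionRing.of_field _ _ (by
    intro z
    obtain ⟨p, q, hpq⟩ := (IntermediateField.mem_adjoin_simple_iff κ₀ (z : κ)).1 z.2
    refine ⟨p, q, ?_⟩
    apply (algebraMap L κ).injective
    rw [map_div₀]
    show (z : κ) = algebraMap L κ (f p) / algebraMap L κ (f q)
    rw [ht, ht]
    exact hpq)
  let P : Ideal κ₀[X] := Ideal.span {X}
  haveI hPp : P.IsPrime := (Ideal.span_singleton_prime X_ne_zero).2 prime_X
  have hP : P ≠ ⊥ := by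
    rw [Ne, Ideal.span_singleton_eq_bot]
    exact X_ne_zero
  let A := Localization.AtPrime P
  haveI : IsDomain A := IsLocalization.isDomain_localization P.primeCompl_le_nonZeroDivisors
  haveI : IsDiscreteValuationRing A :=
    IsLocalization.AtPrime.isDiscreteValuationRing_of_dedekind_domain κ₀[X] hP A
  letI : Algebra A L := IsLocalization.localizationAlgebraOfSubmonoidLe A L P.primeCompl
    (nonZeroDivisors κ₀[X]) P.primeCompl_le_nonZeroDivisors
  haveI : IsScalarTower κ₀[X] A L :=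
    IsLocalization.localization_isScalarTower_of_submonoid_le A L P.primeCompl
      (nonZeroDivisors κ₀[X]) P.primeCompl_le_nonZeroDivisors
  haveI : IsFractionRing A L :=
    IsFractionRing.isFractionRing_of_isDomain_of_isLocalization P.primeCompl A L
  letI : Algebra A κ := ((algebraMap L κ).comp (algebraMap A L)).toAlgebra
  haveI : IsScalarTower A L κ := IsScalarTower.of_algebraMap_eq fun _ => rfl
  haveI : CharZero L := charZero_of_injective_algebraMap (algebraMap κ₀ L).injective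
  haveI : Algebra.IsAlgebraic L κ := halg
  haveI : IsAlgClosure L κ := ⟨inferInstance, inferInstance⟩
  have hcomp : ∀ p : κ₀[X], algebraMap A κ (algebraMap κ₀[X] A p) = aeval ρ p := by
    intro p
    rw [← ht]
    show algebraMap L κ (algebraMap A L (algebraMap κ₀[X] A p)) = _
    rw [← IsScalarTower.algebraMap_apply κ₀[X] A L]
    rfl
  let VL : ValuationSubring L :=
    { (algebraMap A L).range with
      mem_or_inv_mem' := fun z => ValuationRing.isInteger_or_isInteger A z }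
  obtain ⟨V, hV⟩ := hEXTV L κ VL
  have hVA : ∀ a : A, algebraMap A κ a ∈ V := fun a => by
    have h1 : algebraMap A L a ∈ V.comap (algebraMap L κ) := by
      rw [hV]
      exact ⟨a, rfl⟩
    exact h1
  have hVn : ∀ a ∈ IsLocalRing.maximalIdeal A, algebraMap A κ a ∈ V.nonunits := by
    intro a ha
    refine nonunits_iff.2 ⟨hVA a, ?_⟩
    by_cases h0 : a = 0
    · left
      rw [h0, map_zero]
    right
    intro h1
    have h2 : (algebraMap A L a)⁻¹ ∈ V.comap (algebraMap L κ) := by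
      rw [ValuationSubring.mem_comap, map_inv₀]
      exact h1
    rw [hV] at h2
    obtain ⟨b, hb⟩ := h2
    have ha0 : algebraMap A L a ≠ 0 := by
      rw [Ne, map_eq_zero_iff _ (IsFractionRing.injective A L)]
      exact h0
    have h3 : a * b = 1 := by
      apply IsFractionRing.injective A L
      rw [map_mul, map_one]
      have hb' : algebraMap A L b = (algebraMap A L a)⁻¹ := hb
      rw [hb', mul_inv_cancel₀ ha0]
    exact (IsLocalRing.mem_maximalIdeal a).1 ha (IsUnit.of_mul_eq_one _ h3)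
  have hℓ : IsUnit ((ℓ : ℕ) : A) := by
    have h1 : IsUnit ((ℓ : ℕ) : κ₀) :=
      (Nat.cast_ne_zero.2 (Fact.out : ℓ.Prime).ne_zero : ((ℓ : ℕ) : κ₀) ≠ 0).isUnit
    have h2 := h1.map ((algebraMap κ₀[X] A).comp C)
    rwa [map_natCast] at h2
  obtain ⟨F, hF, r, hr, D⟩ := hND A L κ V hVA hVn ℓ hℓ
  have hmem : ∀ c : κ₀, algebraMap κ₀ κ c ∈ V := by
    intro c
    have h1 := hVA (algebraMap κ₀[X] A (C c))
    rwa [hcomp, aeval_C] at h1
  have hρV : ρ ∈ V.nonunits := by
    have h1 := hVn (algebraMap κ₀[X] A X) ((IsLocalization.AtPrime.to_map_mem_maximal_iff A P X).2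
      (Ideal.mem_span_singleton_self X))
    rwa [hcomp, aeval_X] at h1
  have hρ0 : ρ ≠ 0 := by
    rintro rfl
    exact hρ isAlgebraic_zero
  refine ⟨F, hF, V, r, ⟨hr, hmem, ?_⟩, D⟩
  refine surj_core ρ V hmem hρV hρ0 r hr fun z => ?_
  obtain ⟨Q, hQ, hQz⟩ := (IsFractionRing.isAlgebraic_iff κ₀[X] L κ).2
    (Algebra.IsAlgebraic.isAlgebraic (R := L) z)
  refine ⟨Q, hQ, ?_⟩
  have e : (((aeval ρ : κ₀[X] →ₐ[κ₀] κ) : κ₀[X] →+* κ)) = algebraMap κ₀[X] κ := by
    refine RingHom.ext fun p => ?_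
    exact (ht p).symm
  rw [e]
  exact hQz

end Pool.Agent.Y317.GT
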