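import Pool.Agent.Y157.GT.Stm
import Pool.Agent.Y157.PS.Tools

/-!
# The residue field of a finite level (project GT, task GEN1)
-/

set_option autoImplicit false
set_option linter.all false

open Polynomial FF

namespace Pool.Agent.Y317.GT

open Pool.Agent.Y157.PS Pool.Agent.Y157.GT

section units

variable {K : Type} [Field K] {V : ValuationSubring K}

theorem non_sum {α : Type*} (s : Finset α) (f : α → K) (h : ∀ i ∈ s, f i ∈ V.nonunits) :
    ∑ i ∈ s, f i ∈ V.nonunits := by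
  classical
  induction s using Finset.induction_on with
  | empty =>
    rw [Finset.sum_empty]
    exact nonunits_iff.2 ⟨zero_mem _, Or.inl rfl⟩
  | insert a s ha ih =>
    rw [Finset.sum_insert ha]
    exact non_add (h a (Finset.mem_insert_self _ _))
      (ih fun i hi => h i (Finset.mem_insert_of_mem hi))

theorem mem_of_non {x y : K} (hx : x ∈ V) (h : y - x ∈ V.nonunits) : y ∈ V := by
  have := add_mem (non_mem h) hx
  rwa [sub_add_cancel] at this

theorem isU_congr {x y : K} (hx : IsU V x) (h : y - x ∈ V.nonunits) : IsU V y := by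
  refine isU_of_not_nonunit (mem_of_non hx.2.1 h) fun h2 => hx.not_nonunit ?_
  have := non_sub h2 h
  rwa [sub_sub_cancel] at this

/-- the largest element of a finite family -/
theorem exists_largest {α : Type*} (s : Finset α) (f : α → K) (h : ∃ i ∈ s, f i ≠ 0) :
    ∃ i ∈ s, f i ≠ 0 ∧ ∀ j ∈ s, f j / f i ∈ V := by
  obtain ⟨i₀, hi₀, h0⟩ := h
  obtain ⟨i, hi, him⟩ := s.exists_max_image (fun i => V.valuation (f i)) ⟨i₀, hi₀⟩
  have hv : V.valuation (f i) ≠ 0 := by
    intro h1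
    have h2 := him i₀ hi₀
    rw [h1] at h2
    exact h0 ((map_eq_zero _).1 (le_zero_iff.1 h2))
  have hi0 : f i ≠ 0 := fun h => hv (by rw [h, map_zero])
  refine ⟨i, hi, hi0, fun j hj => ?_⟩
  rw [← V.valuation_le_one_iff, map_div₀]
  exact div_le_one_of_le₀ (him j hj) zero_le'

theorem mem_of_root {k : Type} [Field k] (φ : k →+* K) (hφ : ∀ a, φ a ∈ V) (p : k[X])
    (hp : p.Monic) (y : K) (h : p.eval₂ φ y = 0) : y ∈ V := by
  let ψ : k →+* V := φ.codRestrict V.toSubring hφ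
  have h1 : IsIntegral V y := ⟨p.map ψ, hp.map ψ, by rw [eval₂_map]; exact h⟩
  obtain ⟨z, hz⟩ := IsIntegrallyClosed.isIntegral_iff.1 h1
  rw [← hz]
  exact z.2

end units

section pair

variable {ℓ : ℕ} {κ₀ κ R₀ R M₀ M : Type} [Field κ₀] [Field κ] [Field R₀] [Field R]
  [Field M₀] [Field M] [Algebra κ₀ κ] [Algebra κ₀ R₀] [Algebra R₀ M₀] [Algebra κ₀ M₀]
  [IsScalarTower κ₀ R₀ M₀] [Algebra κ R] [Algebra R M] [Algebra κ M] [IsScalarTower κ R M]
  {x₀ : R₀} {x : R} {B₀ : Finset κ₀} {B : Finset κ} {Y₀ : M₀} {Y : M} {ι : M₀ →+* M}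

theorem iota_poly (P : Pair ℓ κ₀ κ R₀ R M₀ M x₀ x B₀ B Y₀ Y ι) (p : κ₀[X]) :
    ι (algebraMap R₀ M₀ (aeval x₀ p)) =
      algebraMap R M (aeval x (p.map (algebraMap κ₀ κ))) := by
  have h1 : ι (algebraMap R₀ M₀ (aeval x₀ p)) =
      p.eval₂ ((ι.comp (algebraMap R₀ M₀)).comp (algebraMap κ₀ R₀))
        (ι (algebraMap R₀ M₀ x₀)) := by
    rw [aeval_def, hom_eval₂, hom_eval₂]
    rfl
  have h2 : algebraMap R M (aeval x (p.map (algebraMap κ₀ κ))) =
      p.eval₂ (((algebraMap R M).comp (algebraMap κ R)).comp (algebraMap κ₀ κ))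
        (algebraMap R M x) := by
    rw [aeval_def, eval₂_map, hom_eval₂]
    rfl
  rw [h1, h2, P.var]
  congr 1
  ext c
  show ι (algebraMap R₀ M₀ (algebraMap κ₀ R₀ c)) =
    algebraMap R M (algebraMap κ R (algebraMap κ₀ κ c))
  rw [← IsScalarTower.algebraMap_apply κ₀ R₀ M₀, P.const, ← IsScalarTower.algebraMap_apply κ R M]

/-- `ι` maps `R₀` into `R` -/
theorem exists_R (P : Pair ℓ κ₀ κ R₀ R M₀ M x₀ x B₀ B Y₀ Y ι) (c : R₀) :
    ∃ r : R, algebraMap R M r = ι (algebraMap R₀ M₀ c) := by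
  obtain ⟨p, q, hq, rfl⟩ := P.cov₀.rat.exists_div c
  refine ⟨aeval x (p.map (algebraMap κ₀ κ)) / aeval x (q.map (algebraMap κ₀ κ)), ?_⟩
  rw [map_div₀, map_div₀, map_div₀, iota_poly P, iota_poly P]

/-- the compositum is generated by a basis -/
theorem mem_comp (P : Pair ℓ κ₀ κ R₀ R M₀ M x₀ x B₀ B Y₀ Y ι) (N₀ : IntermediateField R₀ M₀)
    {n : ℕ} (b : Module.Basis (Fin n) R₀ N₀) (z : M)
    (hz : z ∈ IntermediateField.adjoin R (ι '' (N₀ : Set M₀))) :
    ∃ c : Fin n → R, ∑ i, c i • ι (b i : M₀) = z := by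
  have hgal := P.cov.gal
  have h1 : (IntermediateField.adjoin R (ι '' (N₀ : Set M₀))).toSubalgebra =
      Algebra.adjoin R (ι '' (N₀ : Set M₀)) :=
    IntermediateField.adjoin_toSubalgebra_of_isAlgebraic fun y _ =>
      Algebra.IsAlgebraic.isAlgebraic y
  have h2 : z ∈ Algebra.adjoin R (ι '' (N₀ : Set M₀)) := by
    rw [← h1]
    exact hz
  have h3 : z ∈ Submodule.span R (Submonoid.closure (ι '' (N₀ : Set M₀)) : Set M) := by
    rw [← Algebra.adjoin_eq_span]
    exact h2
  have h4 : Submonoid.closure (ι '' (N₀ : Set M₀)) ≤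
      (N₀.toSubalgebra.toSubring.toSubmonoid).map (ι : M₀ →* M) := by
    rw [Submonoid.closure_le]
    rintro _ ⟨w, hw, rfl⟩
    exact ⟨w, hw, rfl⟩
  have h5 : z ∈ Submodule.span R (Set.range fun i => ι (b i : M₀)) := by
    refine Submodule.span_le.2 ?_ h3
    intro y hy
    obtain ⟨w, hw, rfl⟩ := h4 hy
    have hw' : w ∈ N₀ := hw
    have e : w = ∑ i, algebraMap R₀ M₀ (b.repr ⟨w, hw'⟩ i) * (b i : M₀) := by
      have h6 := congrArg (Subtype.val : N₀ → M₀) (b.sum_repr ⟨w, hw'⟩)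
      refine Eq.trans h6.symm ?_
      rw [IntermediateField.coe_sum]
      refine Finset.sum_congr rfl fun i _ => ?_
      rw [Algebra.smul_def]
      rfl
    show ι w ∈ _
    rw [e, map_sum]
    refine Submodule.sum_mem _ fun i _ => ?_
    obtain ⟨r, hr⟩ := exists_R P (b.repr ⟨w, hw'⟩ i)
    rw [map_mul, ← hr, ← Algebra.smul_def]
    exact Submodule.smul_mem _ _ (Submodule.subset_span ⟨i, rfl⟩)
  exact (Submodule.mem_span_range_iff_exists_fun R).1 h5

variable {F : Type} [Field F] {V : ValuationSubring κ} {r : V →+* F} {O : ValuationSubring M}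

theorem isU_const (hr : Coef κ₀ V r) {c : κ₀} (hc : c ≠ 0) : IsU V (algebraMap κ₀ κ c) :=
  ⟨(_root_.map_ne_zero _).2 hc, hr.mem c, by rw [← map_inv₀]; exact hr.mem _⟩

theorem aeval_isU (hO : Gauss V (algebraMap R M x) O) (p : κ[X]) (h1 : ∀ n, p.coeff n ∈ V)
    (h2 : ∃ n, IsU V (p.coeff n)) : IsU O (algebraMap R M (aeval x p)) := by
  rw [← aeval_algebraMap_apply]
  exact hO.2 p h1 h2

theorem iota_poly_isU (P : Pair ℓ κ₀ κ R₀ R M₀ M x₀ x B₀ B Y₀ Y ι) (hr : Coef κ₀ V r)
    (hO : Gauss V (algebraMap R M x) O) {p : κ₀[X]} (hp : p ≠ 0) :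
    IsU O (ι (algebraMap R₀ M₀ (aeval x₀ p))) := by
  rw [iota_poly P]
  refine aeval_isU hO _ (fun n => ?_) ⟨p.natDegree, ?_⟩
  · rw [coeff_map]
    exact hr.mem _
  · rw [coeff_map]
    exact isU_const hr (leadingCoeff_ne_zero.2 hp)

theorem iota_R_isU (P : Pair ℓ κ₀ κ R₀ R M₀ M x₀ x B₀ B Y₀ Y ι) (hr : Coef κ₀ V r)
    (hO : Gauss V (algebraMap R M x) O) {c : R₀} (hc : c ≠ 0) :
    IsU O (ι (algebraMap R₀ M₀ c)) := by
  obtain ⟨p, q, hq, rfl⟩ := P.cov₀.rat.exists_div c
  have hp0 : p ≠ 0 := by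
    rintro rfl
    exact hc (by rw [map_zero, zero_div])
  have hq0 : q ≠ 0 := by
    rintro rfl
    exact hq (map_zero _)
  rw [map_div₀, map_div₀]
  exact (iota_poly_isU P hr hO hp0).div (iota_poly_isU P hr hO hq0)

theorem iota_R_mem (P : Pair ℓ κ₀ κ R₀ R M₀ M x₀ x B₀ B Y₀ Y ι) (hr : Coef κ₀ V r)
    (hO : Gauss V (algebraMap R M x) O) (c : R₀) : ι (algebraMap R₀ M₀ c) ∈ O := by
  by_cases hc : c = 0
  · rw [hc, map_zero, map_zero]
    exact zero_mem _
  · exact (iota_R_isU P hr hO hc).2.1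

theorem iota_mem (P : Pair ℓ κ₀ κ R₀ R M₀ M x₀ x B₀ B Y₀ Y ι) (hr : Coef κ₀ V r)
    (hO : Gauss V (algebraMap R M x) O) (z₀ : M₀) : ι z₀ ∈ O := by
  have hgal := P.cov₀.gal
  have h1 : IsIntegral R₀ z₀ := (Algebra.IsAlgebraic.isAlgebraic z₀).isIntegral
  obtain ⟨p, hp, hp0⟩ := h1
  refine mem_of_root (ι.comp (algebraMap R₀ M₀)) (fun a => iota_R_mem P hr hO a) p hp _ ?_
  rw [← hom_eval₂, hp0, map_zero]

theorem iota_isU (P : Pair ℓ κ₀ κ R₀ R M₀ M x₀ x B₀ B Y₀ Y ι) (hr : Coef κ₀ V r)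
    (hO : Gauss V (algebraMap R M x) O) (z₀ : M₀) (hz : z₀ ≠ 0) : IsU O (ι z₀) :=
  ⟨(_root_.map_ne_zero _).2 hz, iota_mem P hr hO z₀, by rw [← map_inv₀]; exact iota_mem P hr hO _⟩

/-- elements of `V` are congruent to elements of `κ₀` -/
theorem exists_coef (hr : Coef κ₀ V r) (a : κ) (ha : a ∈ V) :
    ∃ c : κ₀, a - algebraMap κ₀ κ c ∈ V.nonunits := by
  obtain ⟨c, hc⟩ := hr.surj (r ⟨a, ha⟩)
  refine ⟨c, ?_⟩
  have h1 : r (⟨a, ha⟩ - ⟨algebraMap κ₀ κ c, hr.mem c⟩) = 0 := by
    rw [map_sub, hc, sub_self]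
  exact (hr.res.ker _).1 h1

/-- polynomials with coefficients in `V` are congruent to polynomials over `κ₀` -/
theorem exists_poly (hr : Coef κ₀ V r) (hO : Gauss V (algebraMap R M x) O) (p : κ[X])
    (hp : ∀ n, p.coeff n ∈ V) : ∃ p₀ : κ₀[X],
      algebraMap R M (aeval x p) - algebraMap R M (aeval x (p₀.map (algebraMap κ₀ κ))) ∈
        O.nonunits ∧ ((∃ n, IsU V (p.coeff n)) → p₀ ≠ 0) := by
  choose c hc using fun n => exists_coef hr (p.coeff n) (hp n)
  refine ⟨∑ i ∈ Finset.range (p.natDegree + 1), monomial i (c i), ?_, ?_⟩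
  · have e : algebraMap R M (aeval x p) - algebraMap R M (aeval x
        ((∑ i ∈ Finset.range (p.natDegree + 1), monomial i (c i)).map (algebraMap κ₀ κ))) =
        ∑ i ∈ Finset.range (p.natDegree + 1),
          algebraMap κ M (p.coeff i - algebraMap κ₀ κ (c i)) * algebraMap R M x ^ i := by
      have e2 : algebraMap R M (aeval x p) = ∑ i ∈ Finset.range (p.natDegree + 1),
          algebraMap R M (aeval x (monomial i (p.coeff i))) := by
        conv_lhs => rw [p.as_sum_range' (p.natDegree + 1) (Nat.lt_succ_self _)]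
        rw [map_sum, map_sum]
      rw [Polynomial.map_sum, map_sum, map_sum, e2, ← Finset.sum_sub_distrib]
      refine Finset.sum_congr rfl fun i _ => ?_
      rw [map_monomial, aeval_monomial, aeval_monomial, map_mul, map_mul, map_pow,
        ← IsScalarTower.algebraMap_apply κ R M, ← IsScalarTower.algebraMap_apply κ R M, map_sub]
      ring
    rw [e]
    refine non_sum _ _ fun i _ => ?_
    rw [mul_comm]
    exact non_mul (pow_mem hO.x_isU.2.1 _) (hO.nonunit.2 (hc i))
  · rintro ⟨n, hn⟩ h0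
    have h1 : (∑ i ∈ Finset.range (p.natDegree + 1), monomial i (c i)).coeff n = c n := by
      rw [finset_sum_coeff]
      simp only [coeff_monomial]
      rw [Finset.sum_ite_eq' (Finset.range (p.natDegree + 1)) n fun i => c i, if_pos]
      rw [Finset.mem_range]
      have := le_natDegree_of_ne_zero hn.1
      omega
    rw [h0, coeff_zero] at h1
    have h2 := hc n
    rw [← h1, map_zero, sub_zero] at h2
    exact hn.not_nonunit h2

/-- elements of `κ(x)` in `O` are congruent to elements of `κ₀(x₀)` -/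
theorem exists_ratF (P : Pair ℓ κ₀ κ R₀ R M₀ M x₀ x B₀ B Y₀ Y ι) (hr : Coef κ₀ V r)
    (hO : Gauss V (algebraMap R M x) O) (z : R) (hz : algebraMap R M z ∈ O) :
    ∃ c : R₀, algebraMap R M z - ι (algebraMap R₀ M₀ c) ∈ O.nonunits := by
  obtain ⟨p, q, hq, hzq⟩ := P.cov.rat.exists_div z
  have hq0 : q ≠ 0 := by
    rintro rfl
    exact hq (map_zero _)
  -- normalisation of the denominator
  obtain ⟨n, hn, hn0, hnm⟩ := exists_largest (V := V) q.support (fun i => q.coeff i)
    ⟨q.natDegree, natDegree_mem_support_of_nonzero hq0, leadingCoeff_ne_zero.2 hq0⟩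
  obtain ⟨q', hq'⟩ : ∃ q' : κ[X], q' = C (q.coeff n)⁻¹ * q := ⟨_, rfl⟩
  obtain ⟨p', hp'⟩ : ∃ p' : κ[X], p' = C (q.coeff n)⁻¹ * p := ⟨_, rfl⟩
  have hqc : ∀ m, q'.coeff m ∈ V := by
    intro m
    rw [hq', coeff_C_mul]
    by_cases hm : q.coeff m = 0
    · rw [hm, mul_zero]
      exact zero_mem _
    · have := hnm m (mem_support_iff.2 hm)
      rwa [div_eq_inv_mul] at this
  have hqn : ∃ m, IsU V (q'.coeff m) := by
    refine ⟨n, ?_⟩
    rw [hq', coeff_C_mul, inv_mul_cancel₀ hn0]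
    exact isU_one
  have hQU := aeval_isU hO q' hqc hqn
  have hc0 : algebraMap κ R (q.coeff n)⁻¹ ≠ 0 := (_root_.map_ne_zero _).2 (inv_ne_zero hn0)
  have hz1 : z = aeval x p' / aeval x q' := by
    rw [hq', hp', map_mul, map_mul, aeval_C, mul_div_mul_left _ _ hc0, hzq]
  have hz2 : algebraMap R M z = algebraMap R M (aeval x p') / algebraMap R M (aeval x q') := by
    rw [hz1, map_div₀]
  have hP : algebraMap R M (aeval x p') ∈ O := by
    rw [eq_div_iff hQU.1] at hz2
    rw [← hz2]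
    exact mul_mem hz hQU.2.1
  -- the coefficients of the numerator
  have hpc : ∀ m, p'.coeff m ∈ V := by
    by_cases hp0 : p' = 0
    · intro m
      rw [hp0, coeff_zero]
      exact zero_mem _
    · obtain ⟨k, hk, hk0, hkm⟩ := exists_largest (V := V) p'.support (fun i => p'.coeff i)
        ⟨p'.natDegree, natDegree_mem_support_of_nonzero hp0, leadingCoeff_ne_zero.2 hp0⟩
      have hdiv : ∀ m, (p'.coeff k)⁻¹ * p'.coeff m ∈ V := by
        intro m
        by_cases hm : p'.coeff m = 0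
        · rw [hm, mul_zero]
          exact zero_mem _
        · have := hkm m (mem_support_iff.2 hm)
          rwa [div_eq_inv_mul] at this
      have hU : IsU O (algebraMap R M (aeval x (C (p'.coeff k)⁻¹ * p'))) := by
        refine aeval_isU hO _ (fun m => ?_) ⟨k, ?_⟩
        · rw [coeff_C_mul]
          exact hdiv m
        · rw [coeff_C_mul, inv_mul_cancel₀ hk0]
          exact isU_one
      have e : algebraMap κ M (p'.coeff k) = algebraMap R M (aeval x p') *
          (algebraMap R M (aeval x (C (p'.coeff k)⁻¹ * p')))⁻¹ := by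
        rw [eq_mul_inv_iff_mul_eq₀ hU.1, map_mul, map_mul, aeval_C,
          ← IsScalarTower.algebraMap_apply κ R M, map_inv₀, mul_inv_cancel_left₀]
        exact (_root_.map_ne_zero _).2 hk0
      have hkV : p'.coeff k ∈ V := by
        rw [← hO.1, e]
        exact mul_mem hP hU.2.2
      intro m
      have := mul_mem hkV (hdiv m)
      rwa [mul_inv_cancel_left₀ hk0] at this
  obtain ⟨p₀, hp₀, -⟩ := exists_poly hr hO p' hpc
  obtain ⟨q₀, hq₀, hq₀'⟩ := exists_poly hr hO q' hqc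
  have hq00 := hq₀' hqn
  refine ⟨aeval x₀ p₀ / aeval x₀ q₀, ?_⟩
  have hQ0U := iota_poly_isU P hr hO hq00
  have hP0 := iota_R_mem P hr hO (aeval x₀ p₀)
  rw [map_div₀, map_div₀, hz2]
  rw [← iota_poly P] at hp₀ hq₀
  generalize ι (algebraMap R₀ M₀ (aeval x₀ p₀)) = P0 at *
  generalize ι (algebraMap R₀ M₀ (aeval x₀ q₀)) = Q0 at *
  generalize algebraMap R M (aeval x p') = P1 at *
  generalize algebraMap R M (aeval x q') = Q1 at *
  have e : P1 / Q1 - P0 / Q0 = (Q1⁻¹ * Q0⁻¹) * (Q0 * (P1 - P0) - P0 * (Q1 - Q0)) := by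
    have := hQU.1
    have := hQ0U.1
    field_simp
    ring
  rw [e]
  exact non_mul (mul_mem hQU.2.2 hQ0U.2.2)
    (non_sub (non_mul hQ0U.2.1 hp₀) (non_mul hP0 hq₀))

end pair

theorem gen1 : S_GEN1 := by
  intro ℓ _ κ₀ κ R₀ R M₀ M _ _ _ _ _ _ _ _ _ _ _ _ _ _ _ _ _ _ _ x₀ x B₀ B Y₀ Y ι P F _ V r hr
    O hO
  refine ⟨iota_isU P hr hO, fun N₀ hN₀ z hz hzO => ?_⟩
  have b := Module.finBasis R₀ N₀
  obtain ⟨c, hc⟩ := mem_comp P N₀ b z hz
  -- the combination of the basis with given coefficients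
  have hcomb : ∀ d : Fin (Module.finrank R₀ N₀) → R₀,
      ι ((∑ i, d i • b i : N₀) : M₀) = ∑ i, ι (algebraMap R₀ M₀ (d i)) * ι (b i : M₀) := by
    intro d
    rw [IntermediateField.coe_sum, map_sum]
    refine Finset.sum_congr rfl fun i _ => ?_
    rw [← map_mul, Algebra.smul_def]
    rfl
  by_cases hall : ∀ i, algebraMap R M (c i) ∈ O
  · choose d hd using fun i => exists_ratF P hr hO (c i) (hall i)
    refine ⟨((∑ i, d i • b i : N₀) : M₀), SetLike.coe_mem _, ?_⟩
    rw [hcomb, ← hc, ← Finset.sum_sub_distrib]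
    refine non_sum _ _ fun i _ => ?_
    rw [Algebra.smul_def, ← sub_mul, mul_comm]
    exact non_mul (iota_mem P hr hO _) (hd i)
  · exfalso
    push Not at hall
    obtain ⟨i₀, hi₀⟩ := hall
    have hi₀0 : algebraMap R M (c i₀) ≠ 0 := by
      intro h
      apply hi₀
      rw [h]
      exact zero_mem _
    obtain ⟨k, -, hk0, hkm⟩ := exists_largest (V := O) Finset.univ
      (fun i => algebraMap R M (c i)) ⟨i₀, Finset.mem_univ _, hi₀0⟩
    have hck : c k ≠ 0 := by
      intro h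
      exact hk0 (by simp only [h, map_zero])
    have hkO : algebraMap R M (c k) ∉ O := by
      intro h
      apply hi₀
      have := mul_mem h (hkm i₀ (Finset.mem_univ _))
      rwa [mul_div_cancel₀ _ hk0] at this
    have hdiv : ∀ i, algebraMap R M (c i / c k) ∈ O := by
      intro i
      rw [map_div₀]
      exact hkm i (Finset.mem_univ _)
    choose d' hd' using fun i => exists_ratF P hr hO (c i / c k) (hdiv i)
    classical
    obtain ⟨d, hd⟩ : ∃ d : Fin (Module.finrank R₀ N₀) → R₀, d = fun i => if i = k then 1 else d' i :=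
      ⟨_, rfl⟩
    have hdk : d k = 1 := by rw [hd]; exact if_pos rfl
    have hdn : ∀ i, algebraMap R M (c i / c k) - ι (algebraMap R₀ M₀ (d i)) ∈ O.nonunits := by
      intro i
      by_cases hik : i = k
      · rw [hik, hdk, div_self hck, map_one, map_one, map_one, sub_self]
        exact nonunits_iff.2 ⟨zero_mem _, Or.inl rfl⟩
      · have : d i = d' i := by rw [hd]; exact if_neg hik
        rw [this]
        exact hd' i
    have hw0 : ((∑ i, d i • b i : N₀) : M₀) ≠ 0 := by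
      intro h
      have h1 : (∑ i, d i • b i : N₀) = 0 := Subtype.ext h
      have h2 := Fintype.linearIndependent_iff.1 b.linearIndependent d h1 k
      rw [hdk] at h2
      exact one_ne_zero h2
    have hwU := iota_isU P hr hO _ hw0
    have hzc : z / algebraMap R M (c k) - ι ((∑ i, d i • b i : N₀) : M₀) ∈ O.nonunits := by
      rw [hcomb, ← hc, Finset.sum_div, ← Finset.sum_sub_distrib]
      refine non_sum _ _ fun i _ => ?_
      have e : c i • ι (b i : M₀) / algebraMap R M (c k) -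
          ι (algebraMap R₀ M₀ (d i)) * ι (b i : M₀) =
          ι (b i : M₀) * (algebraMap R M (c i / c k) - ι (algebraMap R₀ M₀ (d i))) := by
        rw [Algebra.smul_def, map_div₀]
        ring
      rw [e]
      exact non_mul (iota_mem P hr hO _) (hdn i)
    have hU := isU_congr hwU hzc
    apply hkO
    have e : algebraMap R M (c k) = z * (z / algebraMap R M (c k))⁻¹ := by
      have hz0 : z ≠ 0 := by
        intro h
        exact hU.1 (by rw [h, zero_div])
      rw [inv_div, mul_div_cancel₀ _ hz0]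
    rw [e]
    exact mul_mem hzO hU.2.2

end Pool.Agent.Y317.GT
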